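import Mathlib

/-!
# Certificates
-/

namespace Pool.Agent.SqS

theorem blt_iff {a b : ℕ} : Nat.blt a b = true ↔ a < b := by rw [Nat.blt_eq]

theorem beq_iff {a b : ℕ} : Nat.beq a b = true ↔ a = b := by rw [Nat.beq_eq]

theorem ble_iff {a b : ℕ} : Nat.ble a b = true ↔ a ≤ b := by rw [Nat.ble_eq]

/-- trial division from `d` on -/
def tr (r : ℕ) : ℕ → ℕ → Bool
  | 0, _ => false
  | f + 1, d => bif Nat.blt r (d * d) then true else
      bif Nat.beq (r % d) 0 then false else tr r f (d + 1)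

theorem tr_spec (r : ℕ) (hr : 2 ≤ r) : ∀ f d : ℕ, 2 ≤ d → (∀ m, 2 ≤ m → m < d → ¬ m ∣ r) →
    tr r f d = true → r.Prime
  | 0, _, _, _, h => by simp [tr] at h
  | f + 1, d, hd, hm, h => by
      unfold tr at h
      by_cases h1 : r < d * d
      · refine Nat.prime_def_le_sqrt.2 ⟨hr, fun m h2 h3 => hm m h2 ?_⟩
        have h4 := Nat.mul_le_mul h3 h3
        have h5 := Nat.sqrt_le r
        by_contra h6
        have h7 : d * d ≤ m * m := Nat.mul_le_mul (by omega) (by omega)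
        omega
      · have h1' : Nat.blt r (d * d) = false := by
          rw [Bool.eq_false_iff]
          intro h2
          exact h1 (blt_iff.1 h2)
        rw [h1', cond_false] at h
        by_cases h2 : r % d = 0
        · have h2' : Nat.beq (r % d) 0 = true := beq_iff.2 h2
          rw [h2', cond_true] at h
          exact absurd h (by simp)
        · have h2' : Nat.beq (r % d) 0 = false := by
            rw [Bool.eq_false_iff]
            intro h3
            exact h2 (beq_iff.1 h3)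
          rw [h2', cond_false] at h
          refine tr_spec r hr f (d + 1) (by omega) (fun m h3 h4 => ?_) h
          rcases Nat.lt_succ_iff_lt_or_eq.1 h4 with h5 | h5
          · exact hm m h3 h5
          · subst h5
            rw [Nat.dvd_iff_mod_eq_zero]
            exact h2

/-- the certificate: `q`, a primitive root `a` of `2 q + 1`, the prime divisors of `q - 1` -/
def chk (x : ℕ × ℕ × List ℕ) : Bool :=
  Nat.ble 3 x.1 && Nat.beq ((x.2.2.prod ^ 18) % (x.1 - 1)) 0 &&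
    x.2.2.all (fun r => Nat.ble 2 r && tr r 400 2 && !(Nat.beq ((2 ^ ((x.1 - 1) / r)) % x.1) 1)) &&
    Nat.beq ((2 ^ (x.1 - 1)) % x.1) 1 && Nat.beq ((x.2.1 ^ (2 * x.1)) % (2 * x.1 + 1)) 1 &&
    !(Nat.beq ((x.2.1 ^ x.1) % (2 * x.1 + 1)) 1) && !(Nat.beq ((x.2.1 ^ 2) % (2 * x.1 + 1)) 1) &&
    !(Nat.beq ((2 ^ (2 * x.1)) % ((2 * x.1 + 1) ^ 2)) 1)

theorem pow_eq_one_iff_mod {m : ℕ} (hm : 2 ≤ m) (a k : ℕ) :
    ((a : ZMod m)) ^ k = 1 ↔ (a ^ k) % m = 1 := by
  have h1 : ((a : ZMod m)) ^ k = 1 ↔ ((a ^ k : ℕ) : ZMod m) = ((1 : ℕ) : ZMod m) := by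
    push_cast
    rfl
  rw [h1, ZMod.natCast_eq_natCast_iff', Nat.mod_eq_of_lt (show 1 < m by omega)]

theorem not_beq {a b : ℕ} (h : (!(Nat.beq a b)) = true) : a ≠ b := by
  intro h1
  rw [h1, Nat.beq_refl] at h
  exact absurd h (by simp)

theorem chk_spec {q a : ℕ} {rs : List ℕ} (h : chk (q, a, rs) = true) :
    q.Prime ∧ q ≠ 2 ∧ (2 * q + 1).Prime ∧ orderOf (2 : ZMod q) = q - 1 ∧
      (2 : ZMod ((2 * q + 1) ^ 2)) ^ (2 * q) ≠ 1 := by
  unfold chk at h
  simp only [Bool.and_eq_true] at h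
  obtain ⟨⟨⟨⟨⟨⟨⟨h1, h2⟩, h3⟩, h4⟩, h5⟩, h6⟩, h7⟩, h8⟩ := h
  have hq3 : 3 ≤ q := ble_iff.1 h1
  have h2' : (q - 1) ∣ rs.prod ^ 18 := Nat.dvd_of_mod_eq_zero (beq_iff.1 h2)
  have h4' : (2 : ZMod q) ^ (q - 1) = 1 := by
    have := (pow_eq_one_iff_mod (show 2 ≤ q by omega) 2 (q - 1)).2 (beq_iff.1 h4)
    simpa using this
  have hr : ∀ r : ℕ, r.Prime → r ∣ q - 1 → (2 : ZMod q) ^ ((q - 1) / r) ≠ 1 := by
    intro r hrp hrq hr1
    have h9 : r ∣ rs.prod := hrp.dvd_of_dvd_pow (hrq.trans h2')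
    obtain ⟨s, hs, hrs⟩ := (Prime.dvd_prod_iff hrp.prime).1 h9
    have h10 := List.all_eq_true.1 h3 s hs
    simp only [Bool.and_eq_true] at h10
    obtain ⟨⟨h11, h12⟩, h13⟩ := h10
    have hsp : s.Prime := tr_spec s (ble_iff.1 h11) 400 2 le_rfl
      (fun m hm1 hm2 => absurd hm1 (by omega)) h12
    have hrs' : r = s := (Nat.prime_dvd_prime_iff_eq hrp hsp).1 hrs
    subst hrs'
    refine not_beq h13 ((pow_eq_one_iff_mod (show 2 ≤ q by omega) 2 _).1 ?_)
    simpa using hr1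
  have hq : q.Prime := lucas_primality q 2 h4' hr
  haveI : Fact (1 < 2 * q + 1) := ⟨by omega⟩
  have hp : (2 * q + 1).Prime := by
    refine lucas_primality (2 * q + 1) (a : ZMod (2 * q + 1)) ?_ ?_
    · exact (pow_eq_one_iff_mod (by omega) a (2 * q + 1 - 1)).2 (beq_iff.1 h5)
    · intro r hrp hrd hr1
      have hr2 := (pow_eq_one_iff_mod (by omega) a _).1 hr1
      rw [Nat.add_sub_cancel] at hrd hr2
      rcases (Nat.Prime.dvd_mul hrp).1 hrd with h9 | h9
      · have : r = 2 := (Nat.prime_dvd_prime_iff_eq hrp Nat.prime_two).1 h9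
        subst this
        rw [Nat.mul_div_cancel_left q (by norm_num)] at hr2
        exact not_beq h6 hr2
      · have : r = q := (Nat.prime_dvd_prime_iff_eq hrp hq).1 h9
        subst this
        rw [Nat.mul_div_cancel _ hrp.pos] at hr2
        exact not_beq h7 hr2
  refine ⟨hq, by omega, hp, ?_, ?_⟩
  · exact orderOf_eq_of_pow_and_pow_div_prime (by omega) h4' hr
  · intro h9
    have h10 : 2 ≤ (2 * q + 1) ^ 2 := by nlinarith
    refine not_beq h8 ((pow_eq_one_iff_mod h10 2 _).1 ?_)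
    simpa using h9

end Pool.Agent.SqS
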