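import Mathlib

/-!
# Counting the `n` for which all `n + 2 ^ (2 ^ k)` are squarefree
-/

namespace Pool.Agent.SqS

open Finset

/-- the allowed classes modulo `p ^ 2` -/
noncomputable def allowed (p L : ℕ) [NeZero (p ^ 2)] : Finset (ZMod (p ^ 2)) :=
  univ \ (range L).image (fun k => -(2 : ZMod (p ^ 2)) ^ (2 ^ k))

theorem card_allowed (p L : ℕ) [NeZero (p ^ 2)]
    (h : Set.InjOn (fun k : ℕ => (2 : ZMod (p ^ 2)) ^ (2 ^ k)) (Set.Iio L)) :
    (allowed p L).card = p ^ 2 - L := by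
  unfold allowed
  rw [card_univ_diff, ZMod.card, card_image_of_injOn, card_range]
  intro i hi j hj hij
  refine h (by simpa using hi) (by simpa using hj) ?_
  exact neg_injective hij

theorem count_le (P : Finset ℕ) (hP : ∀ p ∈ P, p.Prime) (L : ℕ → ℕ)
    (hL : ∀ p ∈ P, Set.InjOn (fun k : ℕ => (2 : ZMod (p ^ 2)) ^ (2 ^ k)) (Set.Iio (L p)))
    (a N : ℕ) :
    {n : ℕ | a ≤ n ∧ n < a + N ∧ ∀ k, Squarefree (n + 2 ^ (2 ^ k))}.ncard ≤
      (N / (∏ p ∈ P, p ^ 2) + 1) * ∏ p ∈ P, (p ^ 2 - L p) := by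
  classical
  haveI hne : ∀ p : {p // p ∈ P}, NeZero ((p : ℕ) ^ 2) := fun p =>
    ⟨pow_ne_zero 2 (hP p p.2).ne_zero⟩
  set M := ∏ p ∈ P, p ^ 2 with hM
  have hset : {n : ℕ | a ≤ n ∧ n < a + N ∧ ∀ k, Squarefree (n + 2 ^ (2 ^ k))} =
      ↑((Finset.Ico a (a + N)).filter (fun n => ∀ k, Squarefree (n + 2 ^ (2 ^ k)))) := by
    ext n
    simp [and_assoc]
  rw [hset, Set.ncard_coe_finset]
  have hR : (N / M + 1) * ∏ p ∈ P, (p ^ 2 - L p) =
      ((range (N / M + 1)) ×ˢ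
        (Fintype.piFinset fun p : {p // p ∈ P} => allowed (p : ℕ) (L p))).card := by
    rw [card_product, card_range, Fintype.card_piFinset]
    congr 1
    rw [← Finset.prod_coe_sort P]
    refine prod_congr rfl fun p _ => ?_
    rw [card_allowed _ _ (hL p p.2)]
  rw [hR]
  refine card_le_card_of_injOn
    (fun n => ((n - a) / M, fun p : {p // p ∈ P} => ((n : ℕ) : ZMod ((p : ℕ) ^ 2)))) ?_ ?_
  · intro n hn
    rw [mem_coe, mem_filter, Finset.mem_Ico] at hn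
    rw [mem_coe, mem_product, mem_range, Fintype.mem_piFinset]
    refine ⟨Nat.lt_succ_of_le (Nat.div_le_div_right (by omega)), fun p => ?_⟩
    unfold allowed
    rw [mem_sdiff]
    refine ⟨mem_univ _, fun hmem => ?_⟩
    obtain ⟨k, -, hk⟩ := mem_image.1 hmem
    have h1 : (((n + 2 ^ (2 ^ k) : ℕ)) : ZMod ((p : ℕ) ^ 2)) = 0 := by
      push_cast
      simp only [] at hk
      rw [← hk]
      ring
    have h2 := (ZMod.natCast_eq_zero_iff _ _).1 h1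
    have h3 := hn.2 k (p : ℕ) (by rw [← sq]; exact h2)
    exact (hP p p.2).one_lt.ne' (Nat.isUnit_iff.1 h3)
  · intro n hn n' hn' h
    rw [mem_coe, mem_filter, Finset.mem_Ico] at hn hn'
    simp only [Prod.mk.injEq] at h
    obtain ⟨h1, h2⟩ := h
    have h3 : ∀ p ∈ P, (((p ^ 2 : ℕ)) : ℤ) ∣ (n' : ℤ) - n := by
      intro p hp
      have h4 := congrFun h2 ⟨p, hp⟩
      simp only [] at h4
      have h5 := (ZMod.natCast_eq_natCast_iff n n' (p ^ 2)).1 h4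
      exact (Nat.modEq_iff_dvd.1 h5)
    have h4 : ((M : ℕ) : ℤ) ∣ (n' : ℤ) - n := by
      rw [hM, Nat.cast_prod]
      refine Finset.prod_dvd_of_coprime ?_ h3
      intro p hp r hr hpr
      rw [Function.onFun, Nat.isCoprime_iff_coprime]
      exact Nat.Coprime.pow 2 2 ((Nat.coprime_primes (hP p hp) (hP r hr)).2 hpr)
    have h6 : (((n' - a : ℕ) : ℤ)) - ((n - a : ℕ) : ℤ) = (n' : ℤ) - n := by omega
    rw [← h6] at h4
    have h5 : (n - a) % M = (n' - a) % M := (Nat.modEq_iff_dvd.2 h4)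
    have h7 : n - a = n' - a := by
      rw [← Nat.div_add_mod (n - a) M, ← Nat.div_add_mod (n' - a) M, h1, h5]
    omega

/-- If `∏ (p ^ 2 - L p) * K < ∏ p ^ 2`, then for all large `N` at most `N / K` of any `N` consecutive
natural numbers are good. -/
theorem density_le (P : Finset ℕ) (hP : ∀ p ∈ P, p.Prime) (L : ℕ → ℕ)
    (hL : ∀ p ∈ P, Set.InjOn (fun k : ℕ => (2 : ZMod (p ^ 2)) ^ (2 ^ k)) (Set.Iio (L p)))
    (K : ℕ) (hK : (∏ p ∈ P, (p ^ 2 - L p)) * K < ∏ p ∈ P, p ^ 2) :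
    ∃ N₀ : ℕ, ∀ a N : ℕ, N₀ ≤ N →
      {n : ℕ | a ≤ n ∧ n < a + N ∧ ∀ k, Squarefree (n + 2 ^ (2 ^ k))}.ncard * K ≤ N := by
  set M := ∏ p ∈ P, p ^ 2 with hM
  set R := ∏ p ∈ P, (p ^ 2 - L p) with hR
  refine ⟨M * M, fun a N hN => ?_⟩
  have h0 : 0 < M := lt_of_le_of_lt (Nat.zero_le _) hK
  have h1 := count_le P hP L hL a N
  rw [← hM, ← hR] at h1
  have h2 : M ≤ N / M := (Nat.le_div_iff_mul_le h0).2 hN
  have h3 : N / M * M ≤ N := Nat.div_mul_le_self N M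
  have h4 : R * K ≤ M - 1 := by omega
  clear_value M R
  obtain ⟨M', rfl⟩ : ∃ M', M = M' + 1 := ⟨M - 1, by omega⟩
  calc {n : ℕ | a ≤ n ∧ n < a + N ∧ ∀ k, Squarefree (n + 2 ^ (2 ^ k))}.ncard * K
      ≤ (N / (M' + 1) + 1) * R * K := Nat.mul_le_mul_right _ h1
    _ = (N / (M' + 1) + 1) * (R * K) := by ring
    _ ≤ (N / (M' + 1) + 1) * M' := Nat.mul_le_mul_left _ (by simpa using h4)
    _ ≤ N := by nlinarith

end Pool.Agent.SqS
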