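import Mathlib

/-!
# The residues of `2 ^ (2 ^ k)` modulo `p ^ 2`
-/

namespace Pool.Agent.SqS

theorem dvd_two_pow_sub_one {m d : ℕ} (h : (2 : ZMod m) ^ d = 1) : m ∣ 2 ^ d - 1 := by
  have h1 : (((2 ^ d - 1 : ℕ)) : ZMod m) = 0 := by
    rw [Nat.cast_sub Nat.one_le_two_pow]
    push_cast
    rw [h, sub_self]
  exact (ZMod.natCast_eq_zero_iff _ _).1 h1

theorem two_pow_eq_one {m d : ℕ} (h : m ∣ 2 ^ d - 1) : (2 : ZMod m) ^ d = 1 := by
  have h1 := (ZMod.natCast_eq_zero_iff _ _).2 h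
  rw [Nat.cast_sub Nat.one_le_two_pow] at h1
  push_cast at h1
  exact sub_eq_zero.1 h1

theorem two_ne_zero' {p : ℕ} (hp : p.Prime) (hp2 : p ≠ 2) : (2 : ZMod p) ≠ 0 := by
  intro h0
  have h0' : ((2 : ℕ) : ZMod p) = 0 := by exact_mod_cast h0
  have h1 := (ZMod.natCast_eq_zero_iff _ _).1 h0'
  exact hp2 ((Nat.prime_dvd_prime_iff_eq hp Nat.prime_two).1 h1)

/-- Let `p` and `q` be odd primes such that `q` divides the order of `2` modulo `p` and
`2 ^ (p - 1) ≠ 1` modulo `p ^ 2`.  Then the first `q * ord_q(2)` numbers `2 ^ (2 ^ k)` are different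
modulo `p ^ 2`. -/
theorem injOn_gen {p q : ℕ} (hp : p.Prime) (hp2 : p ≠ 2) (hq : q.Prime) (hq2 : q ≠ 2)
    (hqw : q ∣ orderOf (2 : ZMod p)) (hW : (2 : ZMod (p ^ 2)) ^ (p - 1) ≠ 1) :
    Set.InjOn (fun k : ℕ => (2 : ZMod (p ^ 2)) ^ (2 ^ k))
      (Set.Iio (q * orderOf (2 : ZMod q))) := by
  have hpodd : Nat.Coprime 2 p := by
    rw [Nat.coprime_two_left]
    exact hp.odd_of_ne_two hp2
  have hqodd : Nat.Coprime 2 q := by
    rw [Nat.coprime_two_left]
    exact hq.odd_of_ne_two hq2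
  have hcop : Nat.Coprime 2 (p ^ 2) := hpodd.pow_right 2
  have hunit : IsUnit (2 : ZMod (p ^ 2)) := by
    have := (ZMod.unitOfCoprime 2 hcop).isUnit
    rwa [ZMod.coe_unitOfCoprime] at this
  haveI : Fact p.Prime := ⟨hp⟩
  haveI : Fact q.Prime := ⟨hq⟩
  set O := orderOf (2 : ZMod (p ^ 2)) with hO
  -- `p` divides the order modulo `p ^ 2`
  have hOφ : O ∣ p * (p - 1) := by
    rw [hO]
    refine orderOf_dvd_of_pow_eq_one ?_
    have h1 := ZMod.pow_totient (ZMod.unitOfCoprime 2 hcop)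
    have h2 := congrArg Units.val h1
    rw [Units.val_pow_eq_pow_val, ZMod.coe_unitOfCoprime, Units.val_one,
      Nat.totient_prime_pow hp (by norm_num)] at h2
    have h3 : p ^ (2 - 1) * (p - 1) = p * (p - 1) := by norm_num
    rw [h3] at h2
    exact_mod_cast h2
  have hpO : p ∣ O := by
    by_contra h
    have h1 : Nat.Coprime O p := ((Nat.Prime.coprime_iff_not_dvd hp).2 h).symm
    have h2 : O ∣ p - 1 := h1.dvd_of_dvd_mul_left hOφ
    exact hW (orderOf_dvd_iff_pow_eq_one.1 h2)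
  -- the order modulo `p`
  set w := orderOf (2 : ZMod p) with hw
  have hwO : w ∣ O := by
    have h1 := orderOf_map_dvd (ZMod.castHom (Dvd.intro_left (p ^ 1) (by ring) : p ∣ p ^ 2) (ZMod p)).toMonoidHom
      (2 : ZMod (p ^ 2))
    have h2 : (ZMod.castHom (Dvd.intro_left (p ^ 1) (by ring) : p ∣ p ^ 2) (ZMod p)).toMonoidHom
        (2 : ZMod (p ^ 2)) = (2 : ZMod p) := map_ofNat (ZMod.castHom _ (ZMod p)) 2
    rw [h2] at h1
    exact h1
  have hqO : q ∣ O := hqw.trans hwO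
  have hoq : orderOf (2 : ZMod q) ∣ q - 1 :=
    orderOf_dvd_of_pow_eq_one (ZMod.pow_card_sub_one_eq_one (two_ne_zero' hq hq2))
  -- the main step
  have main : ∀ i j : ℕ, i < j → j < q * orderOf (2 : ZMod q) →
      (2 : ZMod (p ^ 2)) ^ (2 ^ i) ≠ (2 : ZMod (p ^ 2)) ^ (2 ^ j) := by
    intro i j hij hj heq
    have hE : O ∣ 2 ^ j - 2 ^ i := by
      rw [hO]
      refine orderOf_dvd_of_pow_eq_one ?_
      have h1 : (2 : ZMod (p ^ 2)) ^ (2 ^ i) * (2 : ZMod (p ^ 2)) ^ (2 ^ j - 2 ^ i) =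
          (2 : ZMod (p ^ 2)) ^ (2 ^ i) * 1 := by
        rw [← pow_add, mul_one, heq]
        congr 1
        have := Nat.pow_le_pow_right (n := 2) (by norm_num) hij.le
        omega
      exact (hunit.pow (2 ^ i)).mul_left_cancel h1
    have hE2 : 2 ^ j - 2 ^ i = 2 ^ i * (2 ^ (j - i) - 1) := by
      rw [Nat.mul_sub, mul_one, ← pow_add]
      congr 2
      omega
    rw [hE2] at hE
    have hpd : p ∣ 2 ^ (j - i) - 1 :=
      (Nat.Coprime.pow_right i hpodd.symm).dvd_of_dvd_mul_left (hpO.trans hE)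
    have hqd : q ∣ 2 ^ (j - i) - 1 :=
      (Nat.Coprime.pow_right i hqodd.symm).dvd_of_dvd_mul_left (hqO.trans hE)
    have h1 : q ∣ j - i := hqw.trans (orderOf_dvd_iff_pow_eq_one.2 (two_pow_eq_one hpd))
    have h2 : orderOf (2 : ZMod q) ∣ j - i := orderOf_dvd_iff_pow_eq_one.2 (two_pow_eq_one hqd)
    have h3 : Nat.Coprime q (orderOf (2 : ZMod q)) := by
      refine Nat.Coprime.coprime_dvd_right hoq ?_
      have := Nat.coprime_self_sub_right (m := 1) (n := q) hq.one_lt.le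
      rw [this]
      exact Nat.coprime_one_right q
    have h4 := Nat.le_of_dvd (by omega) (h3.mul_dvd_of_dvd_of_dvd h1 h2)
    omega
  intro i hi j hj h
  rcases lt_trichotomy i j with hlt | heq | hgt
  · exact absurd h (main i j hlt hj)
  · exact heq
  · exact absurd h.symm (main j i hgt hi)

/-- If `q` and `p = 2 q + 1` are odd primes, `2` is a primitive root modulo `q` and
`2 ^ (p - 1) ≠ 1` modulo `p ^ 2`, then the first `q (q - 1)` numbers `2 ^ (2 ^ k)` are different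
modulo `p ^ 2`. -/
theorem injOn {q : ℕ} (hq : q.Prime) (hq2 : q ≠ 2) (hp : (2 * q + 1).Prime)
    (hord : orderOf (2 : ZMod q) = q - 1)
    (hW : (2 : ZMod ((2 * q + 1) ^ 2)) ^ (2 * q) ≠ 1) :
    Set.InjOn (fun k : ℕ => (2 : ZMod ((2 * q + 1) ^ 2)) ^ (2 ^ k)) (Set.Iio (q * (q - 1))) := by
  have hq3 : 3 ≤ q := by
    have := hq.two_le
    omega
  haveI : Fact (2 * q + 1).Prime := ⟨hp⟩
  have hqw : q ∣ orderOf (2 : ZMod (2 * q + 1)) := by
    by_contra h
    have h1 : Nat.Coprime (orderOf (2 : ZMod (2 * q + 1))) q :=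
      ((Nat.Prime.coprime_iff_not_dvd hq).2 h).symm
    have h2 : orderOf (2 : ZMod (2 * q + 1)) ∣ 2 * q := by
      refine orderOf_dvd_of_pow_eq_one ?_
      exact ZMod.pow_card_sub_one_eq_one (two_ne_zero' hp (by omega))
    have h3 : orderOf (2 : ZMod (2 * q + 1)) ∣ 2 := h1.dvd_of_dvd_mul_right h2
    have h4 : (2 : ZMod (2 * q + 1)) ^ 2 = 1 := orderOf_dvd_iff_pow_eq_one.1 h3
    have h5 := Nat.le_of_dvd (by norm_num) (dvd_two_pow_sub_one h4)
    norm_num at h5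
    omega
  have := injOn_gen hp (by omega) hq hq2 hqw hW
  rwa [hord] at this

end Pool.Agent.SqS
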