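import Pool.Agent.SqS.Inj
import Pool.Agent.SqS.Count
import Pool.Agent.SqS.Cert
import Pool.Agent.SqS.Data

/-!
# The proof
-/

set_option maxRecDepth 100000

namespace Pool.Agent.SqS

theorem D_chk : D.all chk = true := by decide +kernel

/-- the primes `2 q + 1` -/
def ps : List ℕ := D.map fun x => 2 * x.1 + 1

theorem ps_chain : ps.IsChain (· < ·) := by decide +kernel

theorem ps_nodup : ps.Nodup :=
  (List.isChain_iff_pairwise.1 ps_chain).imp fun h => ne_of_lt h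

/-- the number of classes `2 ^ (2 ^ k)` modulo `p ^ 2` used -/
def L (p : ℕ) : ℕ := ((p - 1) / 2) * ((p - 1) / 2 - 1)

theorem prod_lt : (ps.map fun p => p ^ 2 - L p).prod * 10 ^ 100 < (ps.map fun p => p ^ 2).prod := by
  decide +kernel

theorem main : ∃ N₀ : ℕ, ∀ a N : ℕ, N₀ ≤ N →
    {n : ℕ | a ≤ n ∧ n < a + N ∧ ∀ k, Squarefree (n + 2 ^ (2 ^ k))}.ncard * 10 ^ 100 ≤ N := by
  have key : ∀ p ∈ ps.toFinset, p.Prime ∧
      Set.InjOn (fun k : ℕ => (2 : ZMod (p ^ 2)) ^ (2 ^ k)) (Set.Iio (L p)) := by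
    intro p hp
    rw [List.mem_toFinset] at hp
    obtain ⟨⟨q, a, rs⟩, hx, rfl⟩ := List.mem_map.1 hp
    obtain ⟨h1, h2, h3, h4, h5⟩ := chk_spec (List.all_eq_true.1 D_chk _ hx)
    refine ⟨h3, ?_⟩
    have h6 := injOn h1 h2 h3 h4 h5
    have h7 : L (2 * q + 1) = q * (q - 1) := by
      unfold L
      rw [Nat.add_sub_cancel, Nat.mul_div_cancel_left q (by norm_num)]
    rw [h7]
    exact h6
  refine density_le ps.toFinset (fun p hp => (key p hp).1) L (fun p hp => (key p hp).2)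
    (10 ^ 100) ?_
  rw [List.prod_toFinset _ ps_nodup, List.prod_toFinset _ ps_nodup]
  exact prod_lt

end Pool.Agent.SqS
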